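import Mathlib

set_option autoImplicit false
set_option linter.unusedSectionVars false

/-!
Small-set expansion and induced forests: sets of vertices in a regular graph without
non-expanding sets of size `k`.
-/

namespace Pool.Agent.V7H96.SF

open Finset
open scoped Classical

variable {V : Type} [Fintype V]

/-- the adjacency matrix -/
noncomputable def adj (G : SimpleGraph V) (u v : V) : ℝ := if G.Adj u v then 1 else 0

lemma adj_nonneg (G : SimpleGraph V) (u v : V) : 0 ≤ adj G u v := by
  unfold adj; split_ifs <;> norm_num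

lemma adj_le_one (G : SimpleGraph V) (u v : V) : adj G u v ≤ 1 := by
  unfold adj; split_ifs <;> norm_num

lemma adj_symm (G : SimpleGraph V) (u v : V) : adj G u v = adj G v u := by
  unfold adj; simp [G.adj_comm]

lemma adj_self (G : SimpleGraph V) (u : V) : adj G u u = 0 := by
  unfold adj; simp

/-- the number of ordered pairs of adjacent vertices in `X × Y` -/
noncomputable def ee (G : SimpleGraph V) (X Y : Finset V) : ℝ := ∑ u ∈ X, ∑ v ∈ Y, adj G u v

lemma ee_nonneg (G : SimpleGraph V) (X Y : Finset V) : 0 ≤ ee G X Y :=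
  sum_nonneg fun _ _ => sum_nonneg fun _ _ => adj_nonneg _ _ _

lemma ee_mono (G : SimpleGraph V) {X X' Y Y' : Finset V} (hX : X ⊆ X') (hY : Y ⊆ Y') :
    ee G X Y ≤ ee G X' Y' := by
  unfold ee
  refine (sum_le_sum_of_subset_of_nonneg hX fun _ _ _ =>
    sum_nonneg fun _ _ => adj_nonneg _ _ _).trans ?_
  exact sum_le_sum fun _ _ => sum_le_sum_of_subset_of_nonneg hY fun _ _ _ => adj_nonneg _ _ _

/-- neighbours -/
noncomputable def nb (G : SimpleGraph V) (v : V) : Finset V := univ.filter fun w => G.Adj v w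

lemma sum_nb (G : SimpleGraph V) (v : V) (f : V → ℝ) :
    ∑ x ∈ nb G v, f x = ∑ x, adj G v x * f x := by
  unfold nb adj
  rw [sum_filter]
  refine sum_congr rfl fun x _ => ?_
  split_ifs <;> simp

/-- the standing assumptions: `G` is `d`-regular and no set of `k` vertices has many inner edges -/
structure Hyp (G : SimpleGraph V) (d k : ℕ) (η : ℝ) : Prop where
  reg : ∀ v, (nb G v).card = d
  dpos : 1 ≤ d
  dk : d ≤ 2 * (k - 1)
  kn : k ≤ Fintype.card V
  no : ∀ S : Finset V, S.card = k → ee G S S ≤ η * d * k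

lemma sum_adj {G : SimpleGraph V} {d : ℕ} (reg : ∀ v, (nb G v).card = d) (v : V) :
    ∑ x, adj G v x = d := by
  have := sum_nb G v (fun _ => 1)
  simp only [mul_one, sum_const, reg v, nsmul_eq_mul, mul_one] at this
  exact this.symm

section
variable {G : SimpleGraph V} {d k : ℕ} {η : ℝ}

lemma Hyp.k2 (h : Hyp G d k η) : 2 ≤ k := by
  have h1 := h.dpos
  have h2 := h.dk
  omega

/-- smaller sets -/
lemma Hyp.no' (h : Hyp G d k η) (U : Finset V) (hU : U.card ≤ k) : ee G U U ≤ η * d * k := by
  obtain ⟨S, hS, hc⟩ := exists_superset_card_eq hU h.kn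
  exact (ee_mono G hS hS).trans (h.no S hc)

lemma ee_union_step (G : SimpleGraph V) (U X Y : Finset V) :
    ee G U U + (ee G X Y - ee G (X ∩ U) (Y ∩ U)) ≤ ee G (U ∪ X ∪ Y) (U ∪ X ∪ Y) := by
  have key : ∀ A B : Finset V, ee G A B = ∑ p ∈ A ×ˢ B, adj G p.1 p.2 := by
    intro A B
    unfold ee
    rw [sum_product]
  rw [key, key, key, key]
  have h1 : ∑ p ∈ X ×ˢ Y, adj G p.1 p.2 =
      ∑ p ∈ (X ×ˢ Y) \ (U ×ˢ U), adj G p.1 p.2 + ∑ p ∈ (X ∩ U) ×ˢ (Y ∩ U), adj G p.1 p.2 := by
    have : (X ×ˢ Y) \ (U ×ˢ U) = (X ×ˢ Y) \ ((X ∩ U) ×ˢ (Y ∩ U)) := by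
      ext p
      simp only [mem_sdiff, mem_product, mem_inter]
      tauto
    rw [this]
    refine (sum_sdiff ?_).symm
    intro p hp
    simp only [mem_product, mem_inter] at hp ⊢
    tauto
  rw [h1]
  have h2 : ∑ p ∈ U ×ˢ U, adj G p.1 p.2 + ∑ p ∈ (X ×ˢ Y) \ (U ×ˢ U), adj G p.1 p.2 ≤
      ∑ p ∈ (U ∪ X ∪ Y) ×ˢ (U ∪ X ∪ Y), adj G p.1 p.2 := by
    rw [← sum_union disjoint_sdiff]
    refine sum_le_sum_of_subset_of_nonneg ?_ fun _ _ _ => adj_nonneg _ _ _
    intro p hp
    simp only [mem_union, mem_sdiff, mem_product] at hp ⊢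
    tauto
  linarith

/-- the degree is at least `1 / (2 η)` -/
lemma Hyp.deg (h : Hyp G d k η) : 1 ≤ 2 * η * d := by
  have key : ∀ j : ℕ, 2 * j ≤ k → ∃ U : Finset V, U.card ≤ 2 * j ∧ (2 * j : ℝ) ≤ ee G U U := by
    intro j
    induction j with
    | zero => intro _; exact ⟨∅, by simp, by simp [ee]⟩
    | succ j ih =>
      intro hj
      obtain ⟨U, hU, he⟩ := ih (by omega)
      have hlt : U.card < Fintype.card V := by have := h.kn; omega
      obtain ⟨v, hv⟩ : ∃ v, v ∉ U := by
        by_contra hcon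
        push Not at hcon
        have : U = univ := by ext x; simp [hcon x]
        rw [this, card_univ] at hlt
        omega
      obtain ⟨w, hw⟩ : (nb G v).Nonempty := by
        rw [← card_pos, h.reg v]; exact h.dpos
      have hvw : G.Adj v w := by simpa [nb] using hw
      refine ⟨U ∪ {v} ∪ {w}, ?_, ?_⟩
      · refine (card_union_le _ _).trans ?_
        have := card_union_le U {v}
        simp only [card_singleton] at this ⊢
        omega
      · have h1 := ee_union_step G U {v} {w}
        have h2 := ee_union_step G U {w} {v}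
        have hne : v ≠ w := hvw.ne
        -- direct estimate
        have h3 : ee G U U + 2 ≤ ee G (U ∪ {v} ∪ {w}) (U ∪ {v} ∪ {w}) := by
          have kk : ∀ A B : Finset V, ee G A B = ∑ p ∈ A ×ˢ B, adj G p.1 p.2 := by
            intro A B
            unfold ee
            rw [sum_product]
          rw [kk, kk]
          have hsub : (U ×ˢ U) ∪ {(v, w), (w, v)} ⊆ (U ∪ {v} ∪ {w}) ×ˢ (U ∪ {v} ∪ {w}) := by
            intro p hp
            simp only [mem_union, mem_product, mem_insert, mem_singleton] at hp ⊢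
            rcases hp with hp | hp | hp
            · tauto
            · subst hp; simp
            · subst hp; simp
          refine le_trans ?_ (sum_le_sum_of_subset_of_nonneg hsub fun _ _ _ => adj_nonneg _ _ _)
          rw [sum_union]
          · rw [sum_pair]
            · have e1 : adj G v w = 1 := by simp [adj, hvw]
              have e2 : adj G w v = 1 := by simp [adj, hvw.symm]
              simp only [e1, e2]
              norm_num
            · intro hcon
              exact hne (Prod.ext_iff.1 hcon).1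
          · rw [disjoint_left]
            intro p hp hp'
            simp only [mem_product, mem_insert, mem_singleton] at hp hp'
            rcases hp' with hp' | hp'
            · subst hp'; exact hv hp.1
            · subst hp'; exact hv hp.2
        push_cast
        linarith
  obtain ⟨U, hU, he⟩ := key (k / 2) (Nat.mul_div_le k 2)
  have h1 := h.no' U (hU.trans (Nat.mul_div_le k 2))
  have h2 : k ≤ 2 * (2 * (k / 2)) := by
    have := h.k2
    omega
  have h3 : (k : ℝ) ≤ 2 * (2 * ((k / 2 : ℕ) : ℝ)) := by exact_mod_cast h2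
  have h4 : (0 : ℝ) < k := by have := h.k2; positivity
  have h5 : (k : ℝ) ≤ 2 * (η * d * k) := by linarith
  have h6 : (k : ℝ) * 1 ≤ k * (2 * η * d) := by nlinarith
  exact le_of_mul_le_mul_left h6 h4

lemma Hyp.eta_pos (h : Hyp G d k η) : 0 < η := by
  by_contra hcon
  push Not at hcon
  have h1 := h.deg
  have h2 : (0 : ℝ) ≤ d := by positivity
  nlinarith

/-- deleting vertices of small degree -/
lemma dens (G : SimpleGraph V) (k : ℕ) (hk : 2 ≤ k) : ∀ (m : ℕ) (W : Finset V), W.card = k + m →
    ∃ S ⊆ W, S.card = k ∧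
      ee G W W * (k * (k - 1)) ≤ ee G S S * (W.card * (W.card - 1)) := by
  intro m
  induction m with
  | zero => intro W hW; exact ⟨W, Subset.rfl, hW, by rw [hW]; simp⟩
  | succ m ih =>
    intro W hW
    have hWpos : 0 < W.card := by omega
    have hne : W.Nonempty := card_pos.1 hWpos
    obtain ⟨v, hvW, hv⟩ := exists_min_image W (fun v => ∑ u ∈ W, adj G v u) hne
    have hmin : (W.card : ℝ) * ∑ u ∈ W, adj G v u ≤ ee G W W := by
      have := sum_le_sum (s := W) (f := fun _ => ∑ u ∈ W, adj G v u)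
        (g := fun x => ∑ u ∈ W, adj G x u) (fun x hx => hv x hx)
      rw [sum_const, nsmul_eq_mul] at this
      exact this
    have hcard : (W.erase v).card = k + m := by
      rw [card_erase_of_mem hvW, hW]; omega
    obtain ⟨S, hS, hSc, hSe⟩ := ih _ hcard
    refine ⟨S, hS.trans (erase_subset _ _), hSc, ?_⟩
    have hdel : ee G W W = ee G (W.erase v) (W.erase v) + 2 * ∑ u ∈ W, adj G v u := by
      have e1 : ∀ x, ∑ u ∈ W, adj G x u = adj G x v + ∑ u ∈ W.erase v, adj G x u := fun x =>
        (add_sum_erase W _ hvW).symm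
      unfold ee
      rw [← add_sum_erase W _ hvW]
      have e2 : ∑ x ∈ W.erase v, ∑ u ∈ W, adj G x u =
          ∑ x ∈ W.erase v, adj G v x + ∑ x ∈ W.erase v, ∑ u ∈ W.erase v, adj G x u := by
        rw [← sum_add_distrib]
        refine sum_congr rfl fun x _ => ?_
        rw [e1 x, adj_symm G x v]
      rw [e2, e1 v, adj_self]
      ring
    have hcR : ((W.erase v).card : ℝ) = W.card - 1 := by
      rw [card_erase_of_mem hvW, Nat.cast_sub (by omega)]; simp
    rw [hcR] at hSe
    set w : ℝ := (W.card : ℝ) with hw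
    set δ : ℝ := ∑ u ∈ W, adj G v u with hδ
    set eW := ee G W W
    set eW' := ee G (W.erase v) (W.erase v)
    have hw3 : 3 ≤ w := by
      rw [hw, hW]; push_cast; 
      have : (2 : ℝ) ≤ k := by exact_mod_cast hk
      have : (0 : ℝ) ≤ m := by positivity
      linarith
    have hkR : (2 : ℝ) ≤ k := by exact_mod_cast hk
    have hkk : 0 ≤ (k : ℝ) * (k - 1) := by nlinarith
    -- eW (1 - 2/w) ≤ eW'
    have h1 : eW * (w - 2) ≤ eW' * w := by nlinarith
    have h2 : eW * (k * (k - 1)) * (w - 2) ≤ ee G S S * (w * (w - 1)) * (w - 2) := by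
      calc eW * (k * (k - 1)) * (w - 2) = (eW * (w - 2)) * (k * (k - 1)) := by ring
        _ ≤ (eW' * w) * (k * (k - 1)) := mul_le_mul_of_nonneg_right h1 hkk
        _ = (eW' * (k * (k - 1))) * w := by ring
        _ ≤ (ee G S S * ((w - 1) * (w - 1 - 1))) * w :=
            mul_le_mul_of_nonneg_right hSe (by linarith)
        _ = ee G S S * (w * (w - 1)) * (w - 2) := by ring
    exact le_of_mul_le_mul_right h2 (by linarith)

/-- two neighbourhoods, if `k < 2 d` -/
lemma Hyp.dense (h : Hyp G d k η) (hdk : k < 2 * d) (a b : V) :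
    ee G (nb G a) (nb G b) ≤ 8 * η * d ^ 2 := by
  have hη := h.eta_pos
  set W := nb G a ∪ nb G b with hW
  have hWc : W.card ≤ 2 * d := by
    refine (card_union_le _ _).trans ?_
    rw [h.reg, h.reg]; omega
  have h1 : ee G (nb G a) (nb G b) ≤ ee G W W := ee_mono G subset_union_left subset_union_right
  have hd : (1 : ℝ) ≤ d := by exact_mod_cast h.dpos
  by_cases hc : W.card ≤ k
  · have h2 := h.no' W hc
    have h3 : (k : ℝ) ≤ 2 * d := by exact_mod_cast hdk.le
    calc ee G (nb G a) (nb G b) ≤ η * d * k := h1.trans h2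
      _ ≤ η * d * (2 * d) := by gcongr
      _ ≤ 8 * η * d ^ 2 := by nlinarith [mul_pos hη (by positivity : (0:ℝ) < (d:ℝ)^2)]
  · push Not at hc
    obtain ⟨S, hS, hSc, hSe⟩ := dens G k h.k2 (W.card - k) W (by omega)
    have h2 := h.no S hSc
    have hkR : (2 : ℝ) ≤ k := by exact_mod_cast h.k2
    have hdk' : (d : ℝ) ≤ 2 * (k - 1) := by
      have := h.dk
      have h3 : d ≤ 2 * k - 2 := by omega
      have h4 : d + 2 ≤ 2 * k := by have := h.k2; omega
      have : (d : ℝ) + 2 ≤ 2 * k := by exact_mod_cast h4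
      linarith
    have hWR : (W.card : ℝ) ≤ 2 * d := by exact_mod_cast hWc
    have hWR' : (k : ℝ) < W.card := by exact_mod_cast hc
    have h5 : ee G W W * (k * (k - 1)) ≤ (η * d * k) * ((2 * d) * (2 * d - 1)) := by
      refine hSe.trans ?_
      refine mul_le_mul h2 ?_ ?_ (by positivity)
      · refine mul_le_mul hWR (by linarith) (by linarith) (by linarith)
      · exact mul_nonneg (by linarith) (by linarith)
    have h6 : ee G W W * (k - 1) ≤ 2 * η * d ^ 2 * (2 * d - 1) := by
      have : (ee G W W * (k - 1)) * k ≤ (2 * η * d ^ 2 * (2 * d - 1)) * k := by nlinarith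
      exact le_of_mul_le_mul_right this (by linarith)
    have h7 : 2 * η * d ^ 2 * (2 * d - 1) ≤ 2 * η * d ^ 2 * (4 * (k - 1)) := by
      have : (0:ℝ) ≤ 2 * η * d ^ 2 := by positivity
      exact mul_le_mul_of_nonneg_left (by linarith) this
    have h8 : ee G W W * (k - 1) ≤ (8 * η * d ^ 2) * (k - 1) := by nlinarith
    exact h1.trans (le_of_mul_le_mul_right h8 (by linarith))

/-- two random neighbourhoods, if `2 d ≤ k` -/
lemma Hyp.sparse (h : Hyp G d k η) (hdk : 2 * d ≤ k) (Q : V → V → ℝ) (hQ : ∀ a b, 0 ≤ Q a b)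
    (hr : ∀ a, ∑ b, Q a b = 1) :
    ∑ a, ∑ b, Q a b * ee G (nb G a) (nb G b) ≤ 5 * η * d ^ 2 * Fintype.card V := by
  have hη := h.eta_pos
  by_contra hcon
  push Not at hcon
  set n : ℝ := (Fintype.card V : ℝ) with hn
  have hkn : (k : ℝ) ≤ n := by rw [hn]; exact_mod_cast h.kn
  have hd : (1 : ℝ) ≤ d := by exact_mod_cast h.dpos
  have hnpos : 0 < n := by
    have : (2 : ℝ) ≤ k := by exact_mod_cast h.k2
    linarith
  set θ : ℝ := (∑ a, ∑ b, Q a b * ee G (nb G a) (nb G b)) / (n * d ^ 2) with hθ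
  have hθ5 : 5 * η < θ := by
    rw [hθ, lt_div_iff₀ (by positivity)]
    linarith [hcon]
  have hθe : ∑ a, ∑ b, Q a b * ee G (nb G a) (nb G b) = θ * (n * d ^ 2) := by
    rw [hθ]; field_simp
  -- one step
  have step : ∀ U : Finset V, U.card ≤ k → ∃ a b : V,
      d ^ 2 * (θ - η) ≤ ee G (nb G a) (nb G b) - ee G (nb G a ∩ U) (nb G b ∩ U) := by
    intro U hU
    by_contra hno
    push Not at hno
    have hnoU := h.no' U hU
    have hloss : ∑ a, ∑ b, Q a b * ee G (nb G a ∩ U) (nb G b ∩ U) ≤ η * d ^ 2 * n := by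
      have e1 : ∀ a b, ee G (nb G a ∩ U) (nb G b ∩ U) ≤ ee G (nb G a ∩ U) U := fun a b =>
        ee_mono G Subset.rfl inter_subset_right
      have e2 : ∑ a, ∑ b, Q a b * ee G (nb G a ∩ U) (nb G b ∩ U) ≤
          ∑ a, ee G (nb G a ∩ U) U := by
        refine sum_le_sum fun a _ => ?_
        calc ∑ b, Q a b * ee G (nb G a ∩ U) (nb G b ∩ U)
            ≤ ∑ b, Q a b * ee G (nb G a ∩ U) U :=
              sum_le_sum fun b _ => mul_le_mul_of_nonneg_left (e1 a b) (hQ a b)
          _ = ee G (nb G a ∩ U) U := by rw [← sum_mul, hr a, one_mul]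
      have e3 : ∑ a, ee G (nb G a ∩ U) U = d * ee G U U := by
        have : ∀ a, ee G (nb G a ∩ U) U = ∑ u ∈ U, adj G u a * ∑ v ∈ U, adj G u v := by
          intro a
          unfold ee
          rw [inter_comm, ← filter_mem_eq_inter, sum_filter]
          refine sum_congr rfl fun u _ => ?_
          simp only [nb, mem_filter, mem_univ, true_and, adj]
          by_cases hau : G.Adj a u
          · simp [hau, hau.symm]
          · have : ¬ G.Adj u a := fun hx => hau hx.symm
            simp [hau, this]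
        simp_rw [this]
        rw [sum_comm]
        unfold ee
        rw [mul_sum]
        refine sum_congr rfl fun u _ => ?_
        rw [← sum_mul, sum_adj h.reg u]
      have e4 : (d : ℝ) * ee G U U ≤ d * (η * d * k) := by gcongr
      calc ∑ a, ∑ b, Q a b * ee G (nb G a ∩ U) (nb G b ∩ U) ≤ d * (η * d * k) := by
            rw [← e3] at e4; exact e2.trans e4
        _ = η * d ^ 2 * k := by ring
        _ ≤ η * d ^ 2 * n := by gcongr
    have hlt : ∑ a, ∑ b, Q a b *
        (ee G (nb G a) (nb G b) - ee G (nb G a ∩ U) (nb G b ∩ U)) <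
        ∑ a : V, ∑ b : V, Q a b * (d ^ 2 * (θ - η)) := by
      have hV : Nonempty V := by
        rw [← Fintype.card_pos_iff]
        have := h.kn
        have := h.k2
        omega
      refine sum_lt_sum_of_nonempty univ_nonempty fun a _ => ?_
      refine sum_lt_sum (fun b _ => mul_le_mul_of_nonneg_left (hno a b).le (hQ a b)) ?_
      by_contra hz
      push Not at hz
      have : ∀ b, Q a b = 0 := by
        intro b
        have h1 := hz b (mem_univ b)
        have h2 := hno a b
        rcases (hQ a b).eq_or_lt with h3 | h3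
        · exact h3.symm
        · exact absurd (mul_lt_mul_of_pos_left h2 h3) (not_lt.2 h1)
      have h1 := hr a
      simp [this] at h1
    have hl : ∑ a, ∑ b, Q a b *
        (ee G (nb G a) (nb G b) - ee G (nb G a ∩ U) (nb G b ∩ U)) =
        ∑ a, ∑ b, Q a b * ee G (nb G a) (nb G b) -
          ∑ a, ∑ b, Q a b * ee G (nb G a ∩ U) (nb G b ∩ U) := by
      simp_rw [mul_sub, sum_sub_distrib]
    have hrr : ∑ a : V, ∑ b : V, Q a b * (d ^ 2 * (θ - η)) = n * (d ^ 2 * (θ - η)) := by
      simp_rw [← sum_mul]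
      rw [show ∑ a, ∑ b, Q a b = n by simp_rw [hr]; simp [hn]]
    rw [hl, hrr, hθe] at hlt
    nlinarith
  -- iterate
  have iter : ∀ j : ℕ, 2 * d * j ≤ k → ∃ U : Finset V, U.card ≤ 2 * d * j ∧
      (j : ℝ) * (d ^ 2 * (θ - η)) ≤ ee G U U := by
    intro j
    induction j with
    | zero => intro _; exact ⟨∅, by simp, by simp [ee]⟩
    | succ j ih =>
      intro hj
      obtain ⟨U, hU, he⟩ := ih (by nlinarith)
      obtain ⟨a, b, hab⟩ := step U (hU.trans (by nlinarith))
      refine ⟨U ∪ nb G a ∪ nb G b, ?_, ?_⟩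
      · refine (card_union_le _ _).trans ?_
        have h1 := card_union_le U (nb G a)
        rw [h.reg] at h1
        rw [h.reg]
        have : 2 * d * (j + 1) = 2 * d * j + d + d := by ring
        omega
      · have := ee_union_step G U (nb G a) (nb G b)
        push_cast
        linarith
  obtain ⟨U, hU, he⟩ := iter (k / (2 * d)) (Nat.mul_div_le k (2 * d))
  have h1 := h.no' U (hU.trans (Nat.mul_div_le k (2 * d)))
  have hd0 : 0 < 2 * d := by have := h.dpos; omega
  have h2 : k ≤ 4 * d * (k / (2 * d)) := by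
    have h3 : 1 ≤ k / (2 * d) := (Nat.one_le_div_iff hd0).2 hdk
    have h4 := Nat.lt_mul_div_succ k hd0
    nlinarith
  have h3 : (k : ℝ) ≤ 4 * d * ((k / (2 * d) : ℕ) : ℝ) := by exact_mod_cast h2
  have h4 : 0 < θ - η := by linarith
  have h5 : (k : ℝ) * (d * (θ - η)) ≤ 4 * (η * d * k) := by
    calc (k : ℝ) * (d * (θ - η)) ≤ (4 * d * ((k / (2 * d) : ℕ) : ℝ)) * (d * (θ - η)) := by
          gcongr
      _ = 4 * (((k / (2 * d) : ℕ) : ℝ) * (d ^ 2 * (θ - η))) := by ring
      _ ≤ 4 * (η * d * k) := by linarith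
  have hk0 : (0 : ℝ) < k := by have := h.k2; positivity
  have h6 : (k * d : ℝ) * (θ - η) ≤ (k * d : ℝ) * (4 * η) := by nlinarith
  have h7 := le_of_mul_le_mul_left h6 (by positivity)
  linarith

/-- two random neighbourhoods -/
lemma Hyp.key (h : Hyp G d k η) (Q : V → V → ℝ) (hQ : ∀ a b, 0 ≤ Q a b)
    (hr : ∀ a, ∑ b, Q a b = 1) :
    ∑ a, ∑ b, Q a b * ee G (nb G a) (nb G b) ≤ 8 * η * d ^ 2 * Fintype.card V := by
  have hη := h.eta_pos
  by_cases hdk : 2 * d ≤ k
  · refine (h.sparse hdk Q hQ hr).trans ?_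
    have : (0 : ℝ) ≤ η * d ^ 2 * Fintype.card V := by positivity
    nlinarith
  · push Not at hdk
    calc ∑ a, ∑ b, Q a b * ee G (nb G a) (nb G b)
        ≤ ∑ a, ∑ b, Q a b * (8 * η * d ^ 2) :=
          sum_le_sum fun a _ => sum_le_sum fun b _ =>
            mul_le_mul_of_nonneg_left (h.dense hdk a b) (hQ a b)
      _ = 8 * η * d ^ 2 * Fintype.card V := by
          simp_rw [← sum_mul, hr]
          simp
          ring

end

end Pool.Agent.V7H96.SF
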