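import Pool.Agent.V7H96.SF.Tree

set_option autoImplicit false
set_option linter.unusedSectionVars false

/-!
Small-set expansion and induced forests: trees and forests as grown trees, the main theorem.
-/

namespace Pool.Agent.V7H96.SF

open Finset
open scoped Classical

/-! ### grown trees and trees -/

lemma gt_of_tree : ∀ (n : ℕ) (W : Type) [Fintype W] (T : SimpleGraph W), T.IsTree →
    Fintype.card W = n → ∃ (S : GT n) (e : W ≃ Fin n), ∀ x y, T.Adj x y ↔ S.ad (e x) (e y) := by
  intro n
  induction n with
  | zero =>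
    intro W _ T hT hc
    have := hT.1.nonempty
    have h0 : 0 < Fintype.card W := Fintype.card_pos
    omega
  | succ n ih =>
    intro W _ T hT hc
    rcases Nat.eq_zero_or_pos n with h0 | hpos
    · subst h0
      refine ⟨GT.root, Fintype.equivFinOfCardEq hc, fun x y => ?_⟩
      have hs : Subsingleton W := by
        rw [← Fintype.card_le_one_iff_subsingleton]; omega
      have : x = y := Subsingleton.elim _ _
      subst this
      simp [GT.ad]
    · have hnt : Nontrivial W := by
        rw [← Fintype.one_lt_card_iff_nontrivial]; omega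
      obtain ⟨v, hv⟩ := hT.exists_vert_degree_one_of_nontrivial
      obtain ⟨u, hvu, huniq⟩ := SimpleGraph.degree_eq_one_iff_existsUnique_adj.1 hv
      have hconn := hT.1.induce_compl_singleton_of_degree_eq_one hv
      have hT' : (T.induce {v}ᶜ).IsTree := ⟨hconn, hT.2.induce _⟩
      have hc' : Fintype.card ({v}ᶜ : Set W) = n := by
        rw [Fintype.card_compl_set, hc]; simp
      obtain ⟨S, e, he⟩ := ih _ _ hT' hc'
      have huv : u ∈ ({v}ᶜ : Set W) := by
        simp only [Set.mem_compl_iff, Set.mem_singleton_iff]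
        exact hvu.ne'
      set φ : W → Fin (n + 1) := fun x => if h : x ∈ ({v}ᶜ : Set W) then (e ⟨x, h⟩).succ else 0
        with hφ
      have hφv : φ v = 0 := by simp [hφ]
      have hφx : ∀ x (h : x ∈ ({v}ᶜ : Set W)), φ x = (e ⟨x, h⟩).succ := fun x h => by
        simp only [hφ, dif_pos h]
      have hinj : Function.Injective φ := by
        intro x y hxy
        by_cases hx : x ∈ ({v}ᶜ : Set W)
        · by_cases hy : y ∈ ({v}ᶜ : Set W)
          · rw [hφx x hx, hφx y hy] at hxy
            have := e.injective (Fin.succ_injective _ hxy)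
            exact congrArg Subtype.val this
          · have hyv : y = v := by simpa using hy
            rw [hφx x hx, hyv, hφv] at hxy
            exact absurd hxy (Fin.succ_ne_zero _)
        · have hxv : x = v := by simpa using hx
          by_cases hy : y ∈ ({v}ᶜ : Set W)
          · rw [hφx y hy, hxv, hφv] at hxy
            exact absurd hxy.symm (Fin.succ_ne_zero _)
          · have hyv : y = v := by simpa using hy
            rw [hxv, hyv]
      have hbij : Function.Bijective φ :=
        (Fintype.bijective_iff_injective_and_card φ).2 ⟨hinj, by rw [hc, Fintype.card_fin]⟩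
      refine ⟨GT.leaf S (e ⟨u, huv⟩), Equiv.ofBijective φ hbij, fun x y => ?_⟩
      simp only [Equiv.ofBijective_apply]
      have leafcase : ∀ y, y ∈ ({v}ᶜ : Set W) → (T.Adj v y ↔ y = u) := fun y _ =>
        ⟨fun h => huniq y h, fun h => h ▸ hvu⟩
      by_cases hx : x ∈ ({v}ᶜ : Set W)
      · by_cases hy : y ∈ ({v}ᶜ : Set W)
        · rw [hφx x hx, hφx y hy, GT.ad_ss, ← he]
          simp
        · have hyv : y = v := by simpa using hy
          rw [hφx x hx, hyv, hφv, GT.ad_s0, T.adj_comm, leafcase x hx, e.injective.eq_iff]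
          simp
      · have hxv : x = v := by simpa using hx
        by_cases hy : y ∈ ({v}ᶜ : Set W)
        · rw [hφx y hy, hxv, hφv, GT.ad_0s, leafcase y hy, e.injective.eq_iff]
          simp
        · have hyv : y = v := by simpa using hy
          rw [hxv, hyv, hφv]
          simp

/-- a finite forest has a vertex with at most one neighbour -/
lemma forest_leaf (W : Type) [Fintype W] [Nonempty W] (F : SimpleGraph W) (hF : F.IsAcyclic) :
    ∃ v, ∀ x y, F.Adj v x → F.Adj v y → x = y := by
  obtain ⟨T, hFT, -, hT⟩ :=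
    (SimpleGraph.connected_top (V := W)).exists_isTree_le_of_le_of_isAcyclic le_top hF
  rcases subsingleton_or_nontrivial W with hs | hn
  · obtain ⟨v⟩ := (inferInstance : Nonempty W)
    exact ⟨v, fun x y _ _ => Subsingleton.elim _ _⟩
  · obtain ⟨v, hv⟩ := hT.exists_vert_degree_one_of_nontrivial
    obtain ⟨u, hvu, huniq⟩ := SimpleGraph.degree_eq_one_iff_existsUnique_adj.1 hv
    exact ⟨v, fun x y hx hy => (huniq x (hFT hx)).trans (huniq y (hFT hy)).symm⟩

lemma gt_of_forest : ∀ (n : ℕ) (W : Type) [Fintype W] (F : SimpleGraph W), F.IsAcyclic →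
    Fintype.card W = n → ∃ (S : GT (n + 1)) (φ : W → Fin (n + 1)), Function.Injective φ ∧
      ∀ x y, F.Adj x y ↔ S.ad (φ x) (φ y) := by
  intro n
  induction n with
  | zero =>
    intro W _ F hF hc
    have hE : IsEmpty W := Fintype.card_eq_zero_iff.1 hc
    exact ⟨GT.root, fun x => (hE.false x).elim, fun x => (hE.false x).elim,
      fun x => (hE.false x).elim⟩
  | succ n ih =>
    intro W _ F hF hc
    have hne : Nonempty W := by
      rw [← Fintype.card_pos_iff]; omega
    obtain ⟨v, hv⟩ := forest_leaf W F hF
    have hc' : Fintype.card ({v}ᶜ : Set W) = n := by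
      rw [Fintype.card_compl_set, hc]; simp
    obtain ⟨S, e, hinj', he⟩ := ih _ (F.induce {v}ᶜ) (hF.induce _) hc'
    -- the parent of the new vertex
    obtain ⟨q, hq⟩ : ∃ q : Fin (n + 1), ∀ y : ({v}ᶜ : Set W), F.Adj v y ↔ e y = q := by
      by_cases hN : ∃ u, F.Adj v u
      · obtain ⟨u, hu⟩ := hN
        have huv : u ∈ ({v}ᶜ : Set W) := by
          simp only [Set.mem_compl_iff, Set.mem_singleton_iff]
          exact hu.ne'
        refine ⟨e ⟨u, huv⟩, fun y => ⟨fun h => ?_, fun h => ?_⟩⟩
        · congr 1
          exact Subtype.ext (hv _ _ h hu)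
        · have := hinj' h
          rw [this]
          exact hu
      · push Not at hN
        obtain ⟨q, hq⟩ : ∃ q, ∀ y, e y ≠ q := by
          by_contra hcon
          push Not at hcon
          have := Fintype.card_le_of_surjective e hcon
          rw [Fintype.card_fin, hc'] at this
          omega
        exact ⟨q, fun y => ⟨fun h => absurd h (hN _), fun h => absurd h (hq y)⟩⟩
    set φ : W → Fin (n + 1 + 1) := fun x =>
      if h : x ∈ ({v}ᶜ : Set W) then (e ⟨x, h⟩).succ else 0 with hφ
    have hφv : φ v = 0 := by simp [hφ]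
    have hφx : ∀ x (h : x ∈ ({v}ᶜ : Set W)), φ x = (e ⟨x, h⟩).succ := fun x h => by
      simp only [hφ, dif_pos h]
    have hinj : Function.Injective φ := by
      intro x y hxy
      by_cases hx : x ∈ ({v}ᶜ : Set W)
      · by_cases hy : y ∈ ({v}ᶜ : Set W)
        · rw [hφx x hx, hφx y hy] at hxy
          have := hinj' (Fin.succ_injective _ hxy)
          exact congrArg Subtype.val this
        · have hyv : y = v := by simpa using hy
          rw [hφx x hx, hyv, hφv] at hxy
          exact absurd hxy (Fin.succ_ne_zero _)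
      · have hxv : x = v := by simpa using hx
        by_cases hy : y ∈ ({v}ᶜ : Set W)
        · rw [hφx y hy, hxv, hφv] at hxy
          exact absurd hxy.symm (Fin.succ_ne_zero _)
        · have hyv : y = v := by simpa using hy
          rw [hxv, hyv]
    refine ⟨GT.leaf S q, φ, hinj, fun x y => ?_⟩
    by_cases hx : x ∈ ({v}ᶜ : Set W)
    · by_cases hy : y ∈ ({v}ᶜ : Set W)
      · rw [hφx x hx, hφx y hy, GT.ad_ss, ← he]
        simp
      · have hyv : y = v := by simpa using hy
        rw [hφx x hx, hyv, hφv, GT.ad_s0, F.adj_comm]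
        exact hq ⟨x, hx⟩
    · have hxv : x = v := by simpa using hx
      by_cases hy : y ∈ ({v}ᶜ : Set W)
      · rw [hφx y hy, hxv, hφv, GT.ad_0s]
        exact hq ⟨y, hy⟩
      · have hyv : y = v := by simpa using hy
        rw [hxv, hyv, hφv]
        simp

lemma GT.ad_of_dst : ∀ {n : ℕ} (T : GT n) (i j : Fin n), T.dst i j = 1 → T.ad i j := by
  intro n T
  induction T with
  | root => intro i j h; simp [GT.dst] at h
  | leaf T q ih =>
    intro i j
    refine Fin.cases ?_ (fun i => ?_) i
    · refine Fin.cases ?_ (fun j => ?_) j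
      · simp
      · intro h
        simp only [GT.dst_0s, Nat.add_eq_right] at h
        simpa using (T.eq_of_dst q j h).symm
    · refine Fin.cases ?_ (fun j => ?_) j
      · intro h
        simp only [GT.dst_s0, Nat.add_eq_right] at h
        simpa using T.eq_of_dst i q h
      · simpa using ih i j

variable {V : Type} [Fintype V]

lemma GT.hom_iff (G : SimpleGraph V) : ∀ {n : ℕ} (T : GT n) (f : Fin n → V),
    T.hom G f ↔ ∀ i j, T.ad i j → G.Adj (f i) (f j) := by
  intro n T
  induction T with
  | root => intro f; simp [GT.hom, GT.ad]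
  | leaf T q ih =>
    intro f
    constructor
    · rintro ⟨h1, h2⟩ i j
      rw [ih] at h2
      refine Fin.cases ?_ (fun i => ?_) i
      · refine Fin.cases ?_ (fun j => ?_) j
        · simp
        · simp only [GT.ad_0s]
          rintro rfl
          exact h1
      · refine Fin.cases ?_ (fun j => ?_) j
        · simp only [GT.ad_s0]
          rintro rfl
          exact h1.symm
        · simp only [GT.ad_ss]
          exact h2 i j
    · intro h
      refine ⟨h 0 q.succ (by simp), ?_⟩
      rw [ih]
      intro i j hij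
      exact h i.succ j.succ (by simpa using hij)

section
variable {G : SimpleGraph V} {d k : ℕ} {η : ℝ}

lemma card_hom_tree {W : Type} [Fintype W] {T : SimpleGraph W} {n : ℕ} (S : GT n)
    (e : W ≃ Fin n) (he : ∀ x y, T.Adj x y ↔ S.ad (e x) (e y)) (hd : 1 ≤ d)
    (reg : ∀ v, (nb G v).card = d) (hV : 0 < Fintype.card V) :
    (Nat.card (T →g G) : ℝ) = Fintype.card V * d ^ (n - 1) := by
  have e1 : (T →g G) ≃ {f : Fin n → V // S.hom G f} :=
    { toFun := fun φ => ⟨fun i => φ (e.symm i), (S.hom_iff G _).2 fun i j hij => by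
        apply φ.map_adj
        rw [he]
        simpa using hij⟩
      invFun := fun f => ⟨fun w => f.1 (e w), fun {x y} hxy =>
        (S.hom_iff G _).1 f.2 _ _ ((he x y).1 hxy)⟩
      left_inv := fun φ => by
        ext w
        simp
      right_inv := fun f => by
        ext i
        simp }
  have h1 := GT.ex_eq (G := G) hd hV S (fun _ => 1)
  rw [GT.ex_one reg hd hV, one_mul] at h1
  rw [← h1, Nat.card_congr e1, Nat.card_eq_fintype_card, Fintype.card_subtype]
  rw [← sum_filter, sum_const, nsmul_eq_mul, mul_one]

lemma card_emb_tree {W : Type} [Fintype W] {T : SimpleGraph W} {n : ℕ} (S : GT n)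
    (e : W ≃ Fin n) (he : ∀ x y, T.Adj x y ↔ S.ad (e x) (e y)) (h : Hyp G d k η) :
    (1 - 5 * η * ((n - 1) * (n - 2))) * (Fintype.card V * d ^ (n - 1)) ≤
      (Nat.card (T ↪g G) : ℝ) := by
  have e1 : (T ↪g G) ≃ {f : Fin n → V // S.good G f} :=
    { toFun := fun φ => ⟨fun i => φ (e.symm i), fun i j => by
        rw [φ.map_adj_iff, he]; simp,
        φ.injective.comp e.symm.injective⟩
      invFun := fun f => ⟨⟨fun w => f.1 (e w), f.2.2.comp e.injective⟩, fun {x y} => by
        rw [he]
        exact f.2.1 (e x) (e y)⟩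
      left_inv := fun φ => by
        ext w
        simp
      right_inv := fun f => by
        ext i
        simp }
  have h1 := GT.ex_eq (G := G) h.dpos h.cardpos S (fun f => if S.good G f then 1 else 0)
  have h2 : S.ex G d (fun f => if S.good G f then (1 : ℝ) else 0) =
      1 - S.ex G d (fun f => if S.good G f then (0 : ℝ) else 1) := by
    have hone := GT.ex_one h.reg h.dpos h.cardpos S
    have hadd := S.ex_add G d (fun f => if S.good G f then (1 : ℝ) else 0)
      (fun f => if S.good G f then (0 : ℝ) else 1)
    have hfun : (fun f : Fin n → V => (if S.good G f then (1 : ℝ) else 0) +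
        (if S.good G f then (0 : ℝ) else 1)) = fun _ => 1 := by
      ext f
      split_ifs <;> norm_num
    rw [hfun, hone] at hadd
    linarith
  have h3 := h.tree S
  have h4 : (∑ f : Fin n → V, if S.hom G f then (if S.good G f then (1 : ℝ) else 0) else 0) =
      Nat.card (T ↪g G) := by
    rw [Nat.card_congr e1, Nat.card_eq_fintype_card, Fintype.card_subtype]
    rw [card_filter]
    push_cast
    refine sum_congr rfl fun f _ => ?_
    by_cases hg : S.good G f
    · rw [if_pos (S.good_hom G f hg)]
    · rw [if_neg hg]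
      split_ifs <;> rfl
  rw [← h4, h1, h2]
  refine mul_le_mul_of_nonneg_right (by linarith) (by positivity)

/-- connected graphs with a cycle have few homomorphisms -/
lemma card_hom_cyclic {W : Type} [Fintype W] {H : SimpleGraph W} (hH : H.Connected)
    (hnt : ¬ H.IsTree) (h : Hyp G d k η) :
    (Nat.card (H →g G) : ℝ) ≤ 8 * η * (Fintype.card V * d ^ (Fintype.card W - 1)) := by
  obtain ⟨T, hTH, hT⟩ := hH.exists_isTree_le
  obtain ⟨S, e, he⟩ := gt_of_tree _ W T hT rfl
  obtain ⟨x, y, hxy, hnxy⟩ : ∃ x y, H.Adj x y ∧ ¬ T.Adj x y := by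
    by_contra hcon
    push Not at hcon
    have : H = T := le_antisymm (fun x y hxy => hcon x y hxy) hTH
    rw [this] at hnt
    exact hnt hT
  obtain ⟨m, hm⟩ : ∃ m, S.dst (e x) (e y) = m + 2 := by
    rcases hcase : S.dst (e x) (e y) with _ | _ | m
    · exact absurd (e.injective (S.eq_of_dst _ _ hcase)) hxy.ne
    · exact absurd ((he x y).2 (S.ad_of_dst _ _ hcase)) hnxy
    · exact ⟨m, rfl⟩
  have h1 := GT.ex_eq (G := G) h.dpos h.cardpos S (fun f => adj G (f (e x)) (f (e y)))
  have h2 := GT.marg h.reg h.dpos S (e x) (e y) (adj G)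
  rw [hm] at h2
  have h3 := h.far m
  rw [h2] at h1
  have h4 : (Nat.card (H →g G) : ℝ) ≤
      ∑ f : Fin (Fintype.card W) → V, if S.hom G f then adj G (f (e x)) (f (e y)) else 0 := by
    have e1 : Function.Injective (fun φ : H →g G => (⟨fun i => φ (e.symm i), by
        rw [S.hom_iff G]
        refine ⟨fun i j hij => ?_, ?_⟩
        · apply φ.map_adj
          apply hTH
          rw [he]
          simpa using hij
        · simpa using φ.map_adj hxy⟩ :
        {f : Fin (Fintype.card W) → V // S.hom G f ∧ G.Adj (f (e x)) (f (e y))})) := by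
      intro φ ψ hφψ
      ext w
      have := congrFun (congrArg Subtype.val hφψ) (e w)
      simpa using this
    have h5 := Nat.card_le_card_of_injective _ e1
    have h6 : (Nat.card {f : Fin (Fintype.card W) → V //
        S.hom G f ∧ G.Adj (f (e x)) (f (e y))} : ℝ) =
        ∑ f : Fin (Fintype.card W) → V, if S.hom G f then adj G (f (e x)) (f (e y)) else 0 := by
      rw [Nat.card_eq_fintype_card, Fintype.card_subtype, card_filter]
      push_cast
      refine sum_congr rfl fun f _ => ?_
      unfold adj
      split_ifs <;> simp_all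
    rw [← h6]
    exact_mod_cast h5
  refine h4.trans ?_
  rw [h1]
  exact mul_le_mul_of_nonneg_right h3 (by positivity)

/-- all small forests are induced subgraphs -/
lemma forest_emb {W : Type} [Fintype W] {F : SimpleGraph W} (hF : F.IsAcyclic)
    (h : Hyp G d k η) (hη : 5 * (Fintype.card W * (Fintype.card W - 1)) * η < 1) :
    Nonempty (F ↪g G) := by
  obtain ⟨S, φ, hinj, hφ⟩ := gt_of_forest _ W F hF rfl
  have h3 := h.tree S
  have hlt : S.ex G d (fun f => if S.good G f then (0 : ℝ) else 1) < 1 := by
    refine h3.trans_lt ?_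
    push_cast
    have : 5 * η * (((Fintype.card W : ℝ) + 1 - 1) * ((Fintype.card W : ℝ) + 1 - 2)) =
        5 * (Fintype.card W * (Fintype.card W - 1)) * η := by ring
    rw [this]
    exact hη
  obtain ⟨f, hf⟩ : ∃ f, S.good G f := by
    by_contra hcon
    push Not at hcon
    have hfun : (fun f : Fin (Fintype.card W + 1) → V => if S.good G f then (0 : ℝ) else 1) =
        fun _ => 1 := by
      ext f
      rw [if_neg (hcon f)]
    rw [hfun, GT.ex_one h.reg h.dpos h.cardpos S] at hlt
    exact lt_irrefl _ hlt
  exact ⟨⟨⟨fun w => f (φ w), hf.2.comp hinj⟩, fun {x y} => by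
    rw [hφ]
    exact hf.1 (φ x) (φ y)⟩⟩

end

end Pool.Agent.V7H96.SF
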