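import Pool.Agent.V7H96.SF.Core

set_option autoImplicit false
set_option linter.unusedSectionVars false

/-!
Random homomorphisms from trees into a regular graph.
-/

namespace Pool.Agent.V7H96.SF

open Finset
open scoped Classical

/-- trees grown by adding leaves; the new vertex is `0`, the old vertices are shifted -/
inductive GT : ℕ → Type
  | root : GT 1
  | leaf {n : ℕ} (T : GT n) (q : Fin n) : GT (n + 1)

/-- adjacency in a grown tree -/
def GT.ad : {n : ℕ} → GT n → Fin n → Fin n → Prop
  | _, .root, _, _ => False
  | _, .leaf T q, i, j =>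
    Fin.cases (motive := fun _ => Prop)
      (Fin.cases (motive := fun _ => Prop) False (fun j' => j' = q) j)
      (fun i' => Fin.cases (motive := fun _ => Prop) (i' = q) (fun j' => T.ad i' j') j) i

/-- distance in a grown tree -/
def GT.dst : {n : ℕ} → GT n → Fin n → Fin n → ℕ
  | _, .root, _, _ => 0
  | _, .leaf T q, i, j =>
    Fin.cases (motive := fun _ => ℕ)
      (Fin.cases (motive := fun _ => ℕ) 0 (fun j' => T.dst q j' + 1) j)
      (fun i' => Fin.cases (motive := fun _ => ℕ) (T.dst i' q + 1) (fun j' => T.dst i' j') j) i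

section simp
variable {n : ℕ} (T : GT n) (q i j : Fin n)

@[simp] lemma GT.ad_00 : (GT.leaf T q).ad 0 0 ↔ False := Iff.rfl
@[simp] lemma GT.ad_0s : (GT.leaf T q).ad 0 j.succ ↔ j = q := Iff.rfl
@[simp] lemma GT.ad_s0 : (GT.leaf T q).ad i.succ 0 ↔ i = q := Iff.rfl
@[simp] lemma GT.ad_ss : (GT.leaf T q).ad i.succ j.succ ↔ T.ad i j := Iff.rfl
@[simp] lemma GT.dst_00 : (GT.leaf T q).dst 0 0 = 0 := rfl
@[simp] lemma GT.dst_0s : (GT.leaf T q).dst 0 j.succ = T.dst q j + 1 := rfl
@[simp] lemma GT.dst_s0 : (GT.leaf T q).dst i.succ 0 = T.dst i q + 1 := rfl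
@[simp] lemma GT.dst_ss : (GT.leaf T q).dst i.succ j.succ = T.dst i j := rfl

end simp

lemma GT.dst_self : ∀ {n : ℕ} (T : GT n) (i : Fin n), T.dst i i = 0 := by
  intro n T
  induction T with
  | root => intro i; rfl
  | leaf T q ih =>
    intro i
    refine Fin.cases ?_ (fun i => ?_) i
    · simp
    · simp [ih]

lemma GT.eq_of_dst : ∀ {n : ℕ} (T : GT n) (i j : Fin n), T.dst i j = 0 → i = j := by
  intro n T
  induction T with
  | root => intro i j _; exact Subsingleton.elim _ _
  | leaf T q ih =>
    intro i j
    refine Fin.cases ?_ (fun i => ?_) i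
    · refine Fin.cases ?_ (fun j => ?_) j
      · simp
      · simp
    · refine Fin.cases ?_ (fun j => ?_) j
      · simp
      · intro h
        rw [ih i j (by simpa using h)]

variable {V : Type} [Fintype V]

/-- homomorphisms from a grown tree -/
def GT.hom (G : SimpleGraph V) : {n : ℕ} → GT n → (Fin n → V) → Prop
  | _, .root, _ => True
  | _, .leaf T q, f => G.Adj (f 0) (f q.succ) ∧ T.hom G (fun i => f i.succ)

/-- the expectation for a random homomorphism -/
noncomputable def GT.ex (G : SimpleGraph V) (d : ℕ) :
    {n : ℕ} → GT n → ((Fin n → V) → ℝ) → ℝ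
  | _, .root, φ => (∑ v, φ (fun _ => v)) / Fintype.card V
  | _, .leaf T q, φ => T.ex G d (fun f => (∑ x, adj G (f q) x * φ (Fin.cons x f)) / d)

section
variable (G : SimpleGraph V) (d : ℕ)

lemma GT.ex_mono : ∀ {n : ℕ} (T : GT n) (φ ψ : (Fin n → V) → ℝ),
    (∀ f, T.hom G f → φ f ≤ ψ f) → T.ex G d φ ≤ T.ex G d ψ := by
  intro n T
  induction T with
  | root =>
    intro φ ψ h
    simp only [GT.ex]
    gcongr with v _
    exact h _ trivial
  | leaf T q ih =>
    intro φ ψ h
    simp only [GT.ex]
    refine ih _ _ fun f hf => ?_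
    refine div_le_div_of_nonneg_right (sum_le_sum fun x _ => ?_) (by positivity)
    by_cases hx : G.Adj (f q) x
    · refine mul_le_mul_of_nonneg_left (h _ ⟨?_, ?_⟩) (adj_nonneg _ _ _)
      · simpa using hx.symm
      · simpa using hf
    · simp [adj, hx]

lemma GT.ex_add : ∀ {n : ℕ} (T : GT n) (φ ψ : (Fin n → V) → ℝ),
    T.ex G d (fun f => φ f + ψ f) = T.ex G d φ + T.ex G d ψ := by
  intro n T
  induction T with
  | root =>
    intro φ ψ
    simp only [GT.ex]
    rw [sum_add_distrib, add_div]
  | leaf T q ih =>
    intro φ ψ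
    simp only [GT.ex]
    rw [← ih]
    congr 1
    ext f
    rw [← add_div, ← sum_add_distrib]
    congr 1
    refine sum_congr rfl fun x _ => ?_
    ring

lemma GT.ex_smul : ∀ {n : ℕ} (T : GT n) (c : ℝ) (φ : (Fin n → V) → ℝ),
    T.ex G d (fun f => c * φ f) = c * T.ex G d φ := by
  intro n T
  induction T with
  | root =>
    intro c φ
    simp only [GT.ex]
    rw [← mul_sum, mul_div_assoc]
  | leaf T q ih =>
    intro c φ
    simp only [GT.ex]
    rw [← ih]
    congr 1
    ext f
    rw [← mul_div_assoc, mul_sum]
    congr 1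
    refine sum_congr rfl fun x _ => ?_
    ring

lemma GT.ex_zero {n : ℕ} (T : GT n) : T.ex G d (fun _ => 0) = 0 := by
  have := T.ex_smul G d 0 (fun _ => 0)
  simpa using this

lemma GT.ex_sum {n : ℕ} (T : GT n) {ι : Type} (s : Finset ι) (φ : ι → (Fin n → V) → ℝ) :
    T.ex G d (fun f => ∑ i ∈ s, φ i f) = ∑ i ∈ s, T.ex G d (φ i) := by
  induction s using Finset.induction_on with
  | empty => simpa using T.ex_zero G d
  | insert a s ha ih =>
    simp_rw [sum_insert ha]
    rw [T.ex_add G d, ih]

end

section
variable {G : SimpleGraph V} {d : ℕ}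

lemma GT.ex_tail (reg : ∀ v, (nb G v).card = d) (hd : 1 ≤ d) {n : ℕ} (T : GT n) (q : Fin n)
    (φ : (Fin n → V) → ℝ) :
    (GT.leaf T q).ex G d (fun f => φ (fun i => f i.succ)) = T.ex G d φ := by
  simp only [GT.ex]
  congr 1
  ext f
  simp only [Fin.cons_succ]
  rw [← sum_mul, sum_adj reg]
  have : (d : ℝ) ≠ 0 := by positivity
  field_simp

lemma GT.ex_one (reg : ∀ v, (nb G v).card = d) (hd : 1 ≤ d) (hV : 0 < Fintype.card V) :
    ∀ {n : ℕ} (T : GT n), T.ex G d (fun _ => 1) = 1 := by
  intro n T
  induction T with
  | root =>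
    simp only [GT.ex]
    have : (Fintype.card V : ℝ) ≠ 0 := by positivity
    simp [this]
  | leaf T q ih => exact (GT.ex_tail reg hd T q (fun _ => 1)).trans ih

/-- the random walk matrix -/
noncomputable def wk (G : SimpleGraph V) (d : ℕ) : Matrix V V ℝ :=
  Matrix.of fun u v => adj G u v / d

lemma wk_apply (u v : V) : wk G d u v = adj G u v / d := rfl

lemma wk_symm (m : ℕ) (u v : V) : (wk G d ^ m) u v = (wk G d ^ m) v u := by
  have h1 : (wk G d).transpose = wk G d := by
    ext u v
    simp [Matrix.transpose_apply, wk_apply, adj_symm G u v]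
  have h2 : (wk G d ^ m).transpose = wk G d ^ m := by rw [Matrix.transpose_pow, h1]
  conv_lhs => rw [← h2]
  rfl

lemma wk_nonneg (m : ℕ) (u v : V) : 0 ≤ (wk G d ^ m) u v := by
  induction m generalizing u v with
  | zero =>
    rw [pow_zero, Matrix.one_apply]
    split_ifs <;> norm_num
  | succ m ih =>
    rw [pow_succ, Matrix.mul_apply]
    exact sum_nonneg fun x _ => mul_nonneg (ih _ _) (div_nonneg (adj_nonneg _ _ _) (by positivity))

lemma wk_row (reg : ∀ v, (nb G v).card = d) (hd : 1 ≤ d) (m : ℕ) (u : V) :
    ∑ v, (wk G d ^ m) u v = 1 := by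
  induction m generalizing u with
  | zero => simp [Matrix.one_apply]
  | succ m ih =>
    simp_rw [pow_succ, Matrix.mul_apply]
    rw [sum_comm]
    have : ∀ x, ∑ v, (wk G d ^ m) u x * wk G d x v = (wk G d ^ m) u x := by
      intro x
      rw [← mul_sum]
      simp_rw [wk_apply]
      rw [← sum_div, sum_adj reg]
      have : (d : ℝ) ≠ 0 := by positivity
      field_simp
    simp_rw [this]
    exact ih u

/-- the joint distribution of the images of two vertices -/
lemma GT.marg (reg : ∀ v, (nb G v).card = d) (hd : 1 ≤ d) :
    ∀ {n : ℕ} (T : GT n) (i j : Fin n) (g : V → V → ℝ),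
      T.ex G d (fun f => g (f i) (f j)) =
        (∑ u, ∑ v, (wk G d ^ T.dst i j) u v * g u v) / Fintype.card V := by
  have hd0 : (d : ℝ) ≠ 0 := by positivity
  intro n T
  induction T with
  | root =>
    intro i j g
    simp only [GT.ex, GT.dst, pow_zero]
    congr 1
    refine sum_congr rfl fun u _ => ?_
    simp [Matrix.one_apply]
  | leaf T q ih =>
    have new_old : ∀ (j : Fin _) (g : V → V → ℝ),
        (GT.leaf T q).ex G d (fun f => g (f 0) (f j.succ)) =
        (∑ u, ∑ v, (wk G d ^ (T.dst q j + 1)) u v * g u v) / Fintype.card V := by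
      intro j g
      simp only [GT.ex, Fin.cons_zero, Fin.cons_succ]
      have h1 := ih q j (fun u v => (∑ x, adj G u x * g x v) / d)
      rw [h1]
      congr 1
      have e1 : ∀ u v : V, (wk G d ^ T.dst q j) u v * ((∑ x, adj G u x * g x v) / d) =
          ∑ x, (wk G d x u * (wk G d ^ T.dst q j) u v) * g x v := by
        intro u v
        rw [mul_div_assoc', mul_sum, sum_div]
        refine sum_congr rfl fun x _ => ?_
        rw [wk_apply, adj_symm G x u]
        ring
      simp_rw [e1]
      rw [sum_comm]
      simp_rw [pow_succ', Matrix.mul_apply, sum_mul]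
      -- goal: ∑ v ∑ u ∑ x = ∑ x ∑ v ∑ u
      rw [sum_comm]
      calc ∑ u, ∑ v, ∑ x, wk G d x u * (wk G d ^ T.dst q j) u v * g x v
          = ∑ u, ∑ x, ∑ v, wk G d x u * (wk G d ^ T.dst q j) u v * g x v :=
            sum_congr rfl fun u _ => sum_comm
        _ = ∑ x, ∑ u, ∑ v, wk G d x u * (wk G d ^ T.dst q j) u v * g x v := sum_comm
        _ = ∑ x, ∑ v, ∑ u, wk G d x u * (wk G d ^ T.dst q j) u v * g x v :=
            sum_congr rfl fun x _ => sum_comm
    intro i j g
    refine Fin.cases ?_ (fun i => ?_) i
    · refine Fin.cases ?_ (fun j => ?_) j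
      · simp only [GT.ex, Fin.cons_zero, GT.dst_00, pow_zero]
        have h1 := ih q q (fun u _ => (∑ x, adj G u x * g x x) / d)
        rw [h1, GT.dst_self, pow_zero]
        congr 1
        simp only [Matrix.one_apply, ite_mul, one_mul, zero_mul, sum_ite_eq, mem_univ, if_true]
        rw [← sum_div, sum_comm]
        have : ∀ x, ∑ u, adj G u x * g x x = d * g x x := by
          intro x
          rw [← sum_mul]
          congr 1
          simp_rw [fun u => adj_symm G u x]
          exact sum_adj reg x
        simp_rw [this]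
        rw [← mul_sum]
        field_simp
      · simpa using new_old j g
    · refine Fin.cases ?_ (fun j => ?_) j
      · have h1 := new_old i (fun u v => g v u)
        simp only [GT.dst_s0]
        refine h1.trans ?_
        congr 1
        rw [sum_comm]
        refine sum_congr rfl fun u _ => sum_congr rfl fun v _ => ?_
        rw [wk_symm]
        have : T.dst q i = T.dst i q := by
          have sy : ∀ {n : ℕ} (T : GT n) (i j : Fin n), T.dst i j = T.dst j i := by
            intro n T
            induction T with
            | root => intro i j; rfl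
            | leaf T q ih =>
              intro i j
              refine Fin.cases ?_ (fun i => ?_) i
              · refine Fin.cases ?_ (fun j => ?_) j
                · rfl
                · simp [ih]
              · refine Fin.cases ?_ (fun j => ?_) j
                · simp [ih]
                · simp [ih]
          exact sy T q i
        rw [this]
      · have := GT.ex_tail reg hd T q (fun f => g (f i) (f j))
        simp only [GT.dst_ss]
        rw [← ih i j g, ← this]

/-- the number of homomorphisms -/
lemma GT.ex_eq (hd : 1 ≤ d) (hV : 0 < Fintype.card V) :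
    ∀ {n : ℕ} (T : GT n) (φ : (Fin n → V) → ℝ),
      (∑ f : Fin n → V, if T.hom G f then φ f else 0) =
        T.ex G d φ * (Fintype.card V * d ^ (n - 1)) := by
  have hd0 : (d : ℝ) ≠ 0 := by positivity
  have hV0 : (Fintype.card V : ℝ) ≠ 0 := by positivity
  intro n T
  induction T with
  | root =>
    intro φ
    have e0 : ∀ f : Fin 1 → V, (if GT.root.hom G f then φ f else 0) = φ f := fun f =>
      if_pos trivial
    rw [sum_congr rfl fun f _ => e0 f, ← (Equiv.funUnique (Fin 1) V).symm.sum_comp]
    simp only [GT.ex, Nat.sub_self, pow_zero, mul_one]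
    rw [div_mul_cancel₀ _ hV0]
    rfl
  | @leaf n T q ih =>
    intro φ
    have hn : 1 ≤ n := by
      have := q.isLt
      omega
    have e0 : ∑ f : Fin (n + 1) → V, (if (GT.leaf T q).hom G f then φ f else 0) =
        ∑ x : V, ∑ f : Fin n → V, (if (GT.leaf T q).hom G (Fin.cons x f) then
          φ (Fin.cons x f) else 0) := by
      rw [← Fintype.sum_prod_type' (f := fun x (f : Fin n → V) =>
        (if (GT.leaf T q).hom G (Fin.cons x f) then φ (Fin.cons x f) else 0))]
      exact (Fintype.sum_equiv (Fin.consEquiv (fun _ => V)) _ _ fun p => rfl).symm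
    rw [e0, sum_comm]
    simp only [GT.ex]
    have h1 := ih (fun f => (∑ x, adj G (f q) x * φ (Fin.cons x f)) / d)
    have h2 : (Fintype.card V : ℝ) * d ^ (n + 1 - 1) =
        (Fintype.card V * d ^ (n - 1)) * d := by
      rw [mul_assoc, ← pow_succ]
      congr 2
      omega
    rw [h2, ← mul_assoc, ← h1, sum_mul]
    refine sum_congr rfl fun f _ => ?_
    by_cases hf : T.hom G f
    · rw [if_pos hf, div_mul_cancel₀ _ hd0]
      refine sum_congr rfl fun x _ => ?_
      by_cases hx : G.Adj (f q) x
      · have : (GT.leaf T q).hom G (Fin.cons x f) := ⟨by simpa using hx.symm, by simpa using hf⟩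
        rw [if_pos this]
        simp [adj, hx]
      · have : ¬ (GT.leaf T q).hom G (Fin.cons x f) := by
          intro hc
          exact hx (by simpa using hc.1.symm)
        rw [if_neg this]
        simp [adj, hx]
    · rw [if_neg hf, zero_mul]
      refine sum_eq_zero fun x _ => ?_
      have : ¬ (GT.leaf T q).hom G (Fin.cons x f) := by
        intro hc
        exact hf (by simpa using hc.2)
      rw [if_neg this]

end

/-- the map is an induced embedding of the grown tree -/
def GT.good (G : SimpleGraph V) {n : ℕ} (T : GT n) (f : Fin n → V) : Prop :=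
  (∀ i j, G.Adj (f i) (f j) ↔ T.ad i j) ∧ Function.Injective f

lemma GT.good_hom (G : SimpleGraph V) : ∀ {n : ℕ} (T : GT n) (f : Fin n → V),
    T.good G f → T.hom G f := by
  intro n T
  induction T with
  | root => intro f _; trivial
  | leaf T q ih =>
    intro f hf
    refine ⟨(hf.1 0 q.succ).2 (by simp), ih _ ⟨fun i j => ?_, fun i j hij => ?_⟩⟩
    · have := hf.1 i.succ j.succ
      simpa using this
    · have := hf.2 hij
      exact Fin.succ_injective _ this

section
variable {G : SimpleGraph V} {d k : ℕ} {η : ℝ}

lemma Hyp.cardpos (h : Hyp G d k η) : 0 < Fintype.card V := by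
  have := h.kn
  have := h.k2
  omega

lemma Hyp.far (h : Hyp G d k η) (m : ℕ) :
    (∑ u, ∑ v, (wk G d ^ (m + 2)) u v * adj G u v) / Fintype.card V ≤ 8 * η := by
  have hd0 : (0 : ℝ) < d := by have := h.dpos; positivity
  have hV0 : (0 : ℝ) < Fintype.card V := by have := h.cardpos; positivity
  rw [div_le_iff₀ hV0]
  have e1 : wk G d ^ (m + 2) = wk G d * wk G d ^ m * wk G d := by
    rw [show m + 2 = (1 + m) + 1 by ring, pow_succ, pow_add, pow_one]
  have hk := h.key (fun a b => (wk G d ^ m) a b) (fun a b => wk_nonneg m a b)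
    (fun a => wk_row h.reg h.dpos m a)
  have e2 : ∑ u, ∑ v, (wk G d ^ (m + 2)) u v * adj G u v =
      (∑ a, ∑ b, (wk G d ^ m) a b * ee G (nb G a) (nb G b)) / d ^ 2 := by
    have e3 : ∀ u v : V, (wk G d ^ (m + 2)) u v * adj G u v =
        ∑ a, ∑ b, (wk G d ^ m) a b * (adj G a u * (adj G b v * adj G u v)) / d ^ 2 := by
      intro u v
      rw [e1, Matrix.mul_apply, sum_mul, sum_comm]
      refine sum_congr rfl fun b _ => ?_
      rw [Matrix.mul_apply, sum_mul, sum_mul]
      refine sum_congr rfl fun a _ => ?_
      rw [wk_apply, wk_apply, adj_symm G u a]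
      field_simp
    have e4 : ∀ a b : V, ee G (nb G a) (nb G b) =
        ∑ u, ∑ v, adj G a u * (adj G b v * adj G u v) := by
      intro a b
      unfold ee
      rw [sum_nb]
      refine sum_congr rfl fun u _ => ?_
      rw [sum_nb, mul_sum]
    simp_rw [e3, e4]
    rw [sum_div]
    calc ∑ u, ∑ v, ∑ a, ∑ b, (wk G d ^ m) a b * (adj G a u * (adj G b v * adj G u v)) / (d:ℝ) ^ 2
        = ∑ u, ∑ a, ∑ v, ∑ b, (wk G d ^ m) a b * (adj G a u * (adj G b v * adj G u v)) /
            (d:ℝ) ^ 2 := sum_congr rfl fun u _ => sum_comm
      _ = ∑ a, ∑ u, ∑ v, ∑ b, (wk G d ^ m) a b * (adj G a u * (adj G b v * adj G u v)) /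
            (d:ℝ) ^ 2 := sum_comm
      _ = ∑ a, (∑ b, (wk G d ^ m) a b * ∑ u, ∑ v, adj G a u * (adj G b v * adj G u v)) /
            (d:ℝ) ^ 2 := by
          refine sum_congr rfl fun a _ => ?_
          rw [sum_div]
          calc ∑ u, ∑ v, ∑ b, (wk G d ^ m) a b * (adj G a u * (adj G b v * adj G u v)) /
                (d:ℝ) ^ 2
              = ∑ u, ∑ b, ∑ v, (wk G d ^ m) a b * (adj G a u * (adj G b v * adj G u v)) /
                (d:ℝ) ^ 2 := sum_congr rfl fun u _ => sum_comm
            _ = ∑ b, ∑ u, ∑ v, (wk G d ^ m) a b * (adj G a u * (adj G b v * adj G u v)) /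
                (d:ℝ) ^ 2 := sum_comm
            _ = _ := by
                refine sum_congr rfl fun b _ => ?_
                rw [mul_sum, sum_div]
                refine sum_congr rfl fun u _ => ?_
                rw [mul_sum, sum_div]
  rw [e2, div_le_iff₀ (by positivity)]
  linarith

lemma Hyp.coll (h : Hyp G d k η) (m : ℕ) :
    (∑ u, ∑ v, (wk G d ^ (m + 1)) u v * (if u = v then (1 : ℝ) else 0)) / Fintype.card V ≤
      2 * η := by
  have hd0 : (0 : ℝ) < d := by have := h.dpos; positivity
  have hV0 : (0 : ℝ) < Fintype.card V := by have := h.cardpos; positivity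
  rw [div_le_iff₀ hV0]
  have h1 : ∀ u, ∑ v, (wk G d ^ (m + 1)) u v * (if u = v then (1 : ℝ) else 0) ≤ 1 / d := by
    intro u
    have : ∑ v, (wk G d ^ (m + 1)) u v * (if u = v then (1 : ℝ) else 0) =
        (wk G d ^ (m + 1)) u u := by simp
    rw [this, pow_succ, Matrix.mul_apply]
    calc ∑ x, (wk G d ^ m) u x * wk G d x u ≤ ∑ x, (wk G d ^ m) u x * (1 / d) := by
          refine sum_le_sum fun x _ => mul_le_mul_of_nonneg_left ?_ (wk_nonneg m u x)
          rw [wk_apply]
          gcongr
          exact adj_le_one _ _ _
      _ = 1 / d := by rw [← sum_mul, wk_row h.reg h.dpos, one_mul]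
  have h2 : (1 : ℝ) / d ≤ 2 * η := by
    rw [div_le_iff₀ hd0]
    linarith [h.deg]
  calc ∑ u, ∑ v, (wk G d ^ (m + 1)) u v * (if u = v then (1 : ℝ) else 0)
      ≤ ∑ _u : V, (2 * η) := sum_le_sum fun u _ => (h1 u).trans h2
    _ = 2 * η * Fintype.card V := by simp; ring

/-- almost all homomorphisms from a tree are induced embeddings -/
lemma Hyp.tree (h : Hyp G d k η) : ∀ {n : ℕ} (T : GT n),
    T.ex G d (fun f => if T.good G f then 0 else 1) ≤ 5 * η * ((n - 1) * (n - 2)) := by
  intro n T
  induction T with
  | root =>
    have : GT.root.ex G d (fun f => if GT.root.good G f then (0 : ℝ) else 1) ≤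
        GT.root.ex G d (fun _ => (0 : ℝ)) := by
      refine GT.ex_mono G d _ _ _ fun f _ => ?_
      rw [if_pos]
      refine ⟨fun i j => ?_, fun i j _ => Subsingleton.elim _ _⟩
      have : i = j := Subsingleton.elim _ _
      subst this
      simp [GT.ad]
    rw [GT.ex_zero] at this
    simpa using this
  | @leaf n T q ih =>
    set B : (Fin (n + 1) → V) → ℝ := fun f =>
      (if T.good G (fun i => f i.succ) then 0 else 1) +
        ∑ j ∈ univ.erase q, (adj G (f 0) (f j.succ) +
          (if f 0 = f j.succ then (1 : ℝ) else 0)) with hB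
    have h1 : (GT.leaf T q).ex G d (fun f => if (GT.leaf T q).good G f then (0 : ℝ) else 1) ≤
        (GT.leaf T q).ex G d B := by
      refine GT.ex_mono G d _ _ _ fun f hf => ?_
      have hnn : ∀ j : Fin n, 0 ≤ adj G (f 0) (f j.succ) +
          (if f 0 = f j.succ then (1 : ℝ) else 0) := fun j =>
        add_nonneg (adj_nonneg _ _ _) (by split_ifs <;> norm_num)
      by_cases hg : (GT.leaf T q).good G f
      · rw [if_pos hg]
        exact add_nonneg (by split_ifs <;> norm_num) (sum_nonneg fun j _ => hnn j)
      · rw [if_neg hg]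
        by_cases ht : T.good G (fun i => f i.succ)
        · -- some new pair is bad
          obtain ⟨j, hj, hbad⟩ : ∃ j : Fin n, j ≠ q ∧
              (G.Adj (f 0) (f j.succ) ∨ f 0 = f j.succ) := by
            by_contra hcon
            push Not at hcon
            apply hg
            have hq : G.Adj (f 0) (f q.succ) := hf.1
            refine ⟨fun i j => ?_, fun i j hij => ?_⟩
            · refine Fin.cases ?_ (fun i => ?_) i
              · refine Fin.cases ?_ (fun j => ?_) j
                · simp
                · by_cases hjq : j = q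
                  · subst hjq; simp [hq]
                  · simp [hjq, (hcon j hjq).1]
              · refine Fin.cases ?_ (fun j => ?_) j
                · by_cases hiq : i = q
                  · subst hiq; simp [hq.symm]
                  · have := (hcon i hiq).1
                    simp only [GT.ad_s0, hiq, iff_false]
                    exact fun hc => this hc.symm
                · simpa using ht.1 i j
            · revert hij
              refine Fin.cases ?_ (fun i => ?_) i
              · refine Fin.cases ?_ (fun j => ?_) j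
                · simp
                · intro hij
                  exfalso
                  by_cases hjq : j = q
                  · subst hjq; exact hq.ne hij
                  · exact (hcon j hjq).2 hij
              · refine Fin.cases ?_ (fun j => ?_) j
                · intro hij
                  exfalso
                  by_cases hiq : i = q
                  · subst hiq; exact hq.ne hij.symm
                  · exact (hcon i hiq).2 hij.symm
                · intro hij
                  rw [ht.2 hij]
          have hone : 1 ≤ adj G (f 0) (f j.succ) + (if f 0 = f j.succ then (1 : ℝ) else 0) := by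
            rcases hbad with hb | hb
            · have : adj G (f 0) (f j.succ) = 1 := by simp [adj, hb]
              rw [this]
              have : (0 : ℝ) ≤ (if f 0 = f j.succ then (1 : ℝ) else 0) := by
                split_ifs <;> norm_num
              linarith
            · rw [if_pos hb]
              linarith [adj_nonneg G (f 0) (f j.succ)]
          have hle := single_le_sum (f := fun j : Fin n => adj G (f 0) (f j.succ) +
            (if f 0 = f j.succ then (1 : ℝ) else 0)) (fun j _ => hnn j)
            (mem_erase.2 ⟨hj, mem_univ j⟩)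
          simp only [hB, if_pos ht, zero_add]
          exact hone.trans hle
        · simp only [hB, if_neg ht]
          linarith [sum_nonneg fun j (_ : j ∈ univ.erase q) => hnn j]
    have h2 : (GT.leaf T q).ex G d B = T.ex G d (fun f => if T.good G f then 0 else 1) +
        ∑ j ∈ univ.erase q, ((GT.leaf T q).ex G d (fun f => adj G (f 0) (f j.succ)) +
          (GT.leaf T q).ex G d (fun f => if f 0 = f j.succ then (1 : ℝ) else 0)) := by
      rw [hB, GT.ex_add, GT.ex_sum]
      congr 1
      · exact GT.ex_tail h.reg h.dpos T q (fun f => if T.good G f then (0 : ℝ) else 1)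
      · exact sum_congr rfl fun j _ => GT.ex_add G d _ _ _
    have h3 : ∀ j ∈ univ.erase q, (GT.leaf T q).ex G d (fun f => adj G (f 0) (f j.succ)) +
        (GT.leaf T q).ex G d (fun f => if f 0 = f j.succ then (1 : ℝ) else 0) ≤ 10 * η := by
      intro j hj
      have hne : j ≠ q := (mem_erase.1 hj).1
      obtain ⟨m, hm⟩ : ∃ m, T.dst q j = m + 1 := by
        rcases Nat.eq_zero_or_pos (T.dst q j) with h0 | h0
        · exact absurd (T.eq_of_dst q j h0).symm hne
        · exact ⟨T.dst q j - 1, by omega⟩
      have e1 := GT.marg h.reg h.dpos (GT.leaf T q) 0 j.succ (adj G)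
      have e2 := GT.marg h.reg h.dpos (GT.leaf T q) 0 j.succ
        (fun u v => if u = v then (1 : ℝ) else 0)
      rw [GT.dst_0s, hm] at e1 e2
      have e3 := h.far m
      have e4 := h.coll (m + 1)
      rw [e1, e2]
      linarith
    have h4 := sum_le_sum h3
    rw [sum_const, card_erase_of_mem (mem_univ q), card_univ, Fintype.card_fin, nsmul_eq_mul] at h4
    have hn : 1 ≤ n := by have := q.isLt; omega
    rw [Nat.cast_sub hn] at h4
    push_cast at h4 ⊢
    rw [h2] at h1
    nlinarith

end

end Pool.Agent.V7H96.SF
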